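import Pool.Agent.H305.EG.Tm

/-!
# Energy inflow at a singularity or at a large velocity: a positive proportion of the scales

Let `(u, p)` be a smooth solution of the Navier-Stokes equations on `(0, T) × ℝ³`, all of whose spatial
derivatives are bounded and square integrable, locally uniformly in `t`. For a point or a line `L` let
`N_σ` be its `σ`-neighbourhood. The energy which flows into `N_σ` during `(t₁, t₂)` minus the energy
dissipated there is
  `∫_{t₁}^{t₂} ∫_{N_σ} (- u · ∇(|u|² / 2 + p) - ν |∇u|²)`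
  `= ∫_{t₁}^{t₂} (- ∫_{∂N_σ} (|u|² / 2 + p) u · n - ν ∫_{N_σ} |∇u|²)`.
A burst at `(T', L)` at the dyadic scale `j` is a `ρ` in `(2⁻ʲ⁻¹, 2⁻ʲ]` and a subcylinder
`N_σ × (t₁, t₂)` of the parabolic cylinder `N_ρ × (T' - ρ² / ν, T')` for which this net inflow is more
than `ε ν² ρ`. This is the case `k = 0` of the definition `Burst`; for `k = 1` the same holds with the
weight `1 - dist(x, L)² / σ²` in `N_σ`, where the net inflow is, with `y` the component of `x - b`
orthogonal to `L`,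
  `σ⁻² ∫_{N_σ} (|u|² + 2 p) (- u · y) - ν ∫_{N_σ} (1 - |y|² / σ²) |∇u|²`,
and then `σ = ρ` will do (`Pool.Agent.H305.EG.crit_GZ`).

The theorem. There are an absolute `ε > 0` and an absolute `C` such that, if `E` is a bound for the
energy at a time `s`, `τ` is a lower bound for `T' - s` and `2ᴺ ≥ (2 + ν + 1/ν + τ + 1/τ + E)^C`:
(1) If `|u(t, x)| > 2ᴺ` at a point `x` of `ℝ³` and a time `t`, then more than `N / 50` of the numbers
`j` with `N / 64 - 1 < j < N` are bursts, at the time `T'` and at each point or line `L`, if `t` and `x`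
are at distances less than `4⁻ᴺ` from `T'` and `L`, with `t ≤ T'`. In particular (`T' = t`, `L ∋ x`) a
velocity of size `A` at `(t, x)` needs such inflows towards `x`, and towards each line through `x`,
shortly before `t`, at at least `c log A` dyadic scales, that is at a positive proportion of the scales
between `1 / A` and `1`. This holds for all smooth solutions, whether or not there is a blow-up, as soon
as `A` is larger than a fixed power of the data.
(2) If `u` is unbounded as `t → T`, then there is a point `b` such that, for `L = {b}` and for each line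
`L` through `b`, more than `N / 50` of the `j` with `N / 64 - 1 < j < N` are bursts at `(T, L)`, for
all these `N`: the scales of the bursts have a positive lower density. If `u` is unbounded near a plane,
a line or a point, then `b` can be chosen on it.
In the theorem of Caffarelli, Kohn and Nirenberg the quantity in the parabolic cylinder is the
dissipation. Here the dissipation has the other sign. Outflow does not matter, and there is no bound of
type I. Read as a criterion: `u` remains bounded near `(T, b)` if, for one `N` as above and for one point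
or line `L ∋ b`, the net inflow is at most `ε ν² ρ` at all the scales `j` with `N / 64 - 1 < j < N` but
`N / 50` of them, and nothing is assumed at the exceptional scales.

Proof. Suppose that there are at most `(64 J + 63) / 50` bursts with `J ≤ j < 64 J`; let `S` be the set of
these `j`. (a) Energy estimate, in the `m` variables orthogonal to `L` (`m = 3, 2`), with the weight
`z^(-3/4) φ(dist(x, L)² / z)`, `z = s + r² - t`, `ν = 1`. The function `φ` is linear on `[0, 1]`,
convex, and equal to `exp(- s / 4)` for `s ≥ 5 / 4`. The weight is a subsolution of the backward heat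
equation, and it is an average of the weights `(1 - dist(x, L)² / ρ²)₊` over the `ρ` with `ρ² ≥ z` only,
with densities that have one maximum in time. At the scales outside of `S` the second mean value theorem
gives the bound `C ε ρ` for the inflow during the subintervals of `(T - ρ², T)`. At the scales in `S` the
net inflow is at most a constant times the maximum of the energy in the tube itself
(`Pool.Agent.H305.EG.Ah_up`: the weighted energy is at most the energy, and it pays for the heat term).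
So for `a_j = sup ∫_{N_r} |u|² / r`, `r = 2⁻ʲ`, `sup` over `(T - r², T)`,
  `a_i ≤ C (8ᴶ 2^(-i/2) + ε + ∑_{j ∈ S, J ≤ j < i} a_j 2^(-(i - j)/2))` (`Pool.Agent.H305.EG.stepY`),
that is `a_j` is bounded by a sequence which is multiplied by `2^(-1/2)` at each scale outside of `S`, as
long as it is more than `C ε`, and by at most `2¹⁶` at the scales in `S`. Hence `a_j ≤ C ε` for all but
`33 #S + 6 J` of the `j` with `J ≤ j < 64 J` (`Pool.Agent.H305.EG.bd_sum`). For `k = 0` the weight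
`(1 - dist(x, L)² / ρ²)₊` is an average of the indicator functions of the `N_σ`, `σ < ρ`.
(b) Local energy estimates in balls, with local estimates for the pressure: the scaled dissipation, which
is at most `E / ρ`, is divided by `2³²` from `16 ρ` to `ρ`, up to a small error, if `ρ` is one of the good
scales with `a_j ≤ C ε`, and it is multiplied by at most `16` otherwise. So it is small at some good scale
(`Pool.Agent.H305.EG.rec_G`). (c) A local regularity theorem with explicit bounds (small dissipation in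
one cylinder of size `z ≥ c 2^(-58 J)`, moving frames: `|u| ≤ C / z`). The same theorem shows that `u` is
bounded for large `|x|`, so, if `u` is unbounded, there is a singular point. The constant `ε` is absolute
by scaling to `ν = 1`, and the bounds are uniform in `T'` by translation in time.
-/

set_option autoImplicit false

open MeasureTheory Set
open scoped ContDiff ENNReal

namespace Pool.Agent.Results.MP_6bf1e5_an.EnergyInflow

/-- The space `ℝ³`. -/
abbrev V : Type := Fin 3 → ℝ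

/-- The partial derivative `∂ⱼ f`. -/
noncomputable def pd (j : Fin 3) (f : V → ℝ) : V → ℝ := fun x => fderiv ℝ f x (Pi.single j 1)

/-- Iterated partial derivatives `∂_{j_n} ⋯ ∂_{j_1} f`. -/
noncomputable def dd : List (Fin 3) → (V → ℝ) → V → ℝ
  | [], f => f
  | j :: l, f => dd l (pd j f)

/-- `f` is bounded by `C` and the integral of its square is at most `C`. -/
def Bd (C : ℝ) (f : V → ℝ) : Prop :=
  (∀ x, |f x| ≤ C) ∧ ∫⁻ x, ENNReal.ofReal (f x ^ 2) ≤ ENNReal.ofReal C

/-- Smooth solutions of the Navier-Stokes equations with viscosity `ν` on `(0, T) × ℝ³`, such that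
each spatial derivative of `u` and of `p` is bounded and square integrable in space, uniformly on
compact subintervals of `(0, T)`. -/
structure Sol (ν T : ℝ) (u : ℝ → V → V) (p : ℝ → V → ℝ) : Prop where
  smu : ∀ i, ContDiffOn ℝ ∞ (fun z : ℝ × V => u z.1 z.2 i) (Ioo 0 T ×ˢ univ)
  smp : ContDiffOn ℝ ∞ (fun z : ℝ × V => p z.1 z.2) (Ioo 0 T ×ˢ univ)
  bdu : ∀ (l : List (Fin 3)) (s t : ℝ), 0 < s → t < T →
    ∃ C : ℝ, ∀ τ ∈ Icc s t, ∀ i, Bd C (dd l fun x => u τ x i)
  bdp : ∀ (l : List (Fin 3)) (s t : ℝ), 0 < s → t < T → ∃ C : ℝ, ∀ τ ∈ Icc s t, Bd C (dd l (p τ))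
  div : ∀ t ∈ Ioo 0 T, ∀ x, ∑ i, pd i (fun y => u t y i) x = 0
  mom : ∀ t ∈ Ioo 0 T, ∀ x i, deriv (fun s => u s x i) t
      + ∑ j, u t x j * pd j (fun y => u t y i) x
    = ν * ∑ j, pd j (pd j fun y => u t y i) x - pd i (p t) x

/-- `∑ (f i · (x - b))²`. For orthonormal vectors `f i` this is the square of the distance of `x` to the
affine subspace `L = {x | f i · (x - b) = 0 for all i}`. -/
noncomputable def dsq {m : ℕ} (f : Fin m → V) (b x : V) : ℝ := ∑ i, (∑ l, f i l * (x l - b l)) ^ 2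

/-- `u` is unbounded near `L` as `t → T` (for `m = 0`, `L` is the whole space). -/
def Unbounded {m : ℕ} (T : ℝ) (u : ℝ → V → V) (f : Fin m → V) (b : V) : Prop :=
  ∀ d > 0, ∀ M : ℝ, ∃ t ∈ Ioo (T - d) T, ∃ x, dsq f b x < d ^ 2 ∧ ∃ i, M < |u t x i|

/-- The weight `(1 - dist(x, L)² / ρ²)^k` in the `ρ`-neighbourhood of `L`, and `0` outside. -/
noncomputable def weight {m : ℕ} (f : Fin m → V) (b : V) (ρ : ℝ) (k : ℕ) (x : V) : ℝ :=
  if dsq f b x < ρ ^ 2 then (1 - dsq f b x / ρ ^ 2) ^ k else 0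

/-- The net inflow of energy with the weight `W`, that is
`∫ (- v · ∇(|v|² / 2 + q) - ν |∇v|²) W`. If `W` is `1` on `S` and `0` outside `S`, this is the inflow
`- ∫_{∂S} (|v|² / 2 + q) v · n` minus the dissipation `ν ∫_S |∇v|²`, as `div v = 0`. -/
noncomputable def net (ν : ℝ) (v : V → V) (q : V → ℝ) (W : V → ℝ) : ℝ :=
  ∫ x, (-fderiv ℝ (fun y => (∑ i, v y i ^ 2) / 2 + q y) x (v x)
    - ν * ∑ i, ∑ j, pd j (fun y => v y i) x ^ 2) * W x

/-- The vectors `f i` are orthonormal. -/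
def Orth {m : ℕ} (f : Fin m → V) : Prop := ∀ i j, ∑ l, f i l * f j l = if i = j then 1 else 0

/-- An inflow of energy at the scale `2⁻ʲ`: there are a `ρ` in `(2⁻ʲ⁻¹, 2⁻ʲ]` and a subcylinder
`N_σ × (t₁, t₂)` of the parabolic cylinder `N_ρ × (T - ρ² / ν, T)` about `L` such that the net inflow of
energy during `(t₁, t₂)`, with the weight `(1 - dist(x, L)² / σ²)^k`, is more than `ε ν² ρ`. -/
def Burst (ε ν T : ℝ) (u : ℝ → V → V) (p : ℝ → V → ℝ) {m : ℕ} (f : Fin m → V) (b : V) (k j : ℕ) :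
    Prop :=
  ∃ ρ ∈ Ioc ((1 / 2 : ℝ) ^ (j + 1)) ((1 / 2) ^ j), ∃ σ ∈ Ioc 0 ρ, ∃ t₁ t₂ : ℝ,
    0 < t₁ ∧ T - ρ ^ 2 / ν ≤ t₁ ∧ t₁ < t₂ ∧ t₂ < T ∧
    ε * ν ^ 2 * ρ < ∫ t in t₁..t₂, net ν (u t) (p t) (weight f b σ k)

/-- More than `N / 50` of the numbers `j` with `N / 64 - 1 < j < N` are bursts. -/
def Many (ε ν T : ℝ) (u : ℝ → V → V) (p : ℝ → V → ℝ) {m : ℕ} (f : Fin m → V) (b : V) (k N : ℕ) :
    Prop :=
  N < 50 * {j | N < 64 * (j + 1) ∧ j < N ∧ Burst ε ν T u p f b k j}.ncard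

lemma dd_eq (l : List (Fin 3)) : ∀ f : V → ℝ, dd l f = Pool.Agent.H305.TI.it l f := by
  induction l with
  | nil => intro f; rfl
  | cons j l ih =>
    intro f
    show dd l (pd j f) = _
    rw [ih, Pool.Agent.H305.TI.it_cons]
    rfl

lemma Sol.toHS {ν T : ℝ} (hν : 0 < ν) {u : ℝ → V → V} {p : ℝ → V → ℝ} (h : Sol ν T u p) :
    Pool.Agent.H305.OS.HS ν T u p := by
  refine ⟨hν, h.smu, h.smp, fun s t hs ht i => ?_, fun s t hs ht => ?_, h.div, ?_⟩
  · refine ⟨fun τ hτ => Pool.Agent.V1183.PM.J.slice (F := fun t x => u t x i) (h.smu i)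
      ⟨hs.trans_le hτ.1, hτ.2.trans_lt ht⟩, fun l => ?_⟩
    obtain ⟨C, hC⟩ := h.bdu l s t hs ht
    refine ⟨max C 0, le_max_right _ _, fun τ hτ => ?_⟩
    have h1 := hC τ hτ i
    rw [dd_eq] at h1
    exact ⟨fun x => (h1.1 x).trans (le_max_left _ _),
      h1.2.trans (ENNReal.ofReal_le_ofReal (le_max_left _ _))⟩
  · refine ⟨fun τ hτ => Pool.Agent.V1183.PM.J.slice (F := p) h.smp
      ⟨hs.trans_le hτ.1, hτ.2.trans_lt ht⟩, fun l => ?_⟩
    obtain ⟨C, hC⟩ := h.bdp l s t hs ht
    refine ⟨max C 0, le_max_right _ _, fun τ hτ => ?_⟩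
    have h1 := hC τ hτ
    rw [dd_eq] at h1
    exact ⟨fun x => (h1.1 x).trans (le_max_left _ _),
      h1.2.trans (ENNReal.ofReal_le_ofReal (le_max_left _ _))⟩
  · intro i t ht x
    have h1 := h.mom t ht x i
    have h2 : ν * Pool.Agent.H305.OS.lp (fun y => u t y i) x
        - Pool.Agent.H305.OS.nl (fun i y => u t y i) i x - H459R3.NS.pd i (p t) x
        = ν * ∑ j, pd j (pd j fun y => u t y i) x - ∑ j, u t x j * pd j (fun y => u t y i) x
          - pd i (p t) x := rfl
    rw [h2]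
    linarith

lemma net_eq {ν T : ℝ} {u : ℝ → V → V} {p : ℝ → V → ℝ} (h : Pool.Agent.H305.OS.HS ν T u p) {t : ℝ}
    (ht : t ∈ Ioo 0 T) (W : V → ℝ) : net ν (u t) (p t) W
      = Pool.Agent.H305.EG.net ν (Pool.Agent.H305.OS.cw u t) (p t) W := by
  unfold net Pool.Agent.H305.EG.net
  refine integral_congr_ae (Filter.Eventually.of_forall fun x => ?_)
  have h1 := Pool.Agent.H305.EF.wk_fderiv (w := Pool.Agent.H305.OS.cw u t)
      (fun i => (h.cw_HF ht i).sm) (h.p_HF ht).sm x
  show (-fderiv ℝ (fun y => (∑ i, u t y i ^ 2) / 2 + p t y) x (u t x)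
    - ν * ∑ i, ∑ j, pd j (fun y => u t y i) x ^ 2) * W x = _
  have h2 : fderiv ℝ (fun y => (∑ i, u t y i ^ 2) / 2 + p t y) x (u t x)
      = Pool.Agent.H305.PL.wk (Pool.Agent.H305.OS.cw u t) (p t) x := h1
  rw [h2]
  rfl

lemma en_le {ν T : ℝ} {u : ℝ → V → V} {p : ℝ → V → ℝ} (h : Pool.Agent.H305.OS.HS ν T u p) {s E : ℝ}
    (hs : s ∈ Ioo 0 T) (hE : ∫⁻ x, ENNReal.ofReal (∑ i, u s x i ^ 2) ≤ ENNReal.ofReal E) :
    Pool.Agent.H305.OS.en u s ≤ max E 0 := by
  have h1 : ∫⁻ x, ENNReal.ofReal (∑ i, u s x i ^ 2)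
      = ENNReal.ofReal (Pool.Agent.H305.OS.en u s) :=
    Pool.Agent.H305.SL.nw_en fun i => h.cw_HF hs i
  rw [h1] at hE
  exact (ENNReal.ofReal_le_ofReal_iff (le_max_right _ _)).1
    (hE.trans (ENNReal.ofReal_le_ofReal (le_max_left _ _)))

lemma u_cont {ν T : ℝ} {u : ℝ → V → V} {p : ℝ → V → ℝ} (h : Pool.Agent.H305.OS.HS ν T u p) {t : ℝ}
    (ht : t ∈ Ioo 0 T) (x : V) (i : Fin 3) : ContinuousAt (fun τ => u τ x i) t := by
  have h1 : ContinuousAt (fun z : ℝ × V => u z.1 z.2 i) (t, x) :=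
    (h.ju i).continuousOn.continuousAt ((isOpen_Ioo.prod isOpen_univ).mem_nhds ⟨ht, mem_univ _⟩)
  exact h1.comp (f := fun τ : ℝ => (τ, x)) (by fun_prop)

theorem result : ∃ ε : ℝ, 0 < ε ∧ ∃ C : ℕ, ∀ ν τ E : ℝ, 0 < ν → 0 < τ → 0 ≤ E →
    ∀ (T : ℝ) (u : ℝ → V → V) (p : ℝ → V → ℝ), Sol ν T u p → ∀ s : ℝ, 0 < s → s + τ ≤ T →
    ∫⁻ x, ENNReal.ofReal (∑ i, u s x i ^ 2) ≤ ENNReal.ofReal E →
    (∀ T' ∈ Icc (s + τ) T, ∀ (m : ℕ) (f : Fin m → V) (b : V), 2 ≤ m → Orth f →
      ∀ N : ℕ, (2 + ν + ν⁻¹ + τ + τ⁻¹ + E) ^ C ≤ 2 ^ N →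
      (∃ t ∈ Ioc (T' - (1 / 4) ^ N) T', t < T ∧ ∃ x, dsq f b x < ((1 / 4) ^ N) ^ 2 ∧
        ∃ i, 2 ^ N < |u t x i|) → ∀ k : ℕ, k ≤ 1 → Many ε ν T' u p f b k N) ∧
    ∀ (m₀ : ℕ) (f₀ : Fin m₀ → V) (b₀ : V), Unbounded T u f₀ b₀ →
      ∃ b : V, (∀ i, ∑ l, f₀ i l * (b l - b₀ l) = 0) ∧
        ∀ (m : ℕ) (f : Fin m → V), 2 ≤ m → Orth f →
        ∀ N : ℕ, (2 + ν + ν⁻¹ + τ + τ⁻¹ + E) ^ C ≤ 2 ^ N → ∀ k : ℕ, k ≤ 1 →
          Many ε ν T u p f b k N := by
  classical
  obtain ⟨ε, hε, n₀, hcr⟩ := Pool.Agent.H305.EG.crit_GZ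
  refine ⟨ε, hε, (n₀ + 1) * 64, ?_⟩
  intro ν τ E hν hτ hE0
  replace hcr := hcr ν τ E hν hτ hE0
  intro T u p h s hs hsT hE
  have hH := h.toHS hν
  have hEs := en_le hH ⟨hs, by linarith⟩ hE
  rw [max_eq_left hE0] at hEs
  obtain ⟨M, hM⟩ : ∃ M : ℝ, M = 2 + ν + ν⁻¹ + τ + τ⁻¹ + E := ⟨_, rfl⟩
  have hM2 : 2 ≤ M := by
    have h1 : 0 < ν⁻¹ := inv_pos.2 hν
    have h2 : 0 < τ⁻¹ := inv_pos.2 hτ
    rw [hM]
    linarith
  rw [← hM] at hcr ⊢
  have main : ∀ T' ∈ Icc (s + τ) T, ∀ (m : ℕ) (f : Fin m → V) (b : V), 2 ≤ m → Orth f →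
      ∀ N : ℕ, M ^ ((n₀ + 1) * 64) ≤ 2 ^ N → ∀ k : ℕ, k ≤ 1 → ¬ Many ε ν T' u p f b k N →
      ∀ t ∈ Ioo (T' - (1 / 4) ^ N) T', ∀ x, dsq f b x < ((1 / 4) ^ N) ^ 2 → ∀ i,
      |u t x i| ≤ 2 ^ N := by
    intro T' hT' m f b hm hf N hN k hk hcon
    obtain ⟨J, hJ⟩ : ∃ J : ℕ, J = N / 64 := ⟨_, rfl⟩
    have hJ1 : 64 * J ≤ N := by omega
    have hJ2 : N < 64 * (J + 1) := by omega
    have hJ3 : M ^ n₀ ≤ 2 ^ J := by
      have h1 : (M ^ (n₀ + 1)) ^ 64 < (2 ^ (J + 1)) ^ 64 := by
        rw [← pow_mul, ← pow_mul]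
        refine hN.trans_lt (pow_lt_pow_right₀ (by norm_num) ?_)
        omega
      have h2 := lt_of_pow_lt_pow_left₀ 64 (by positivity) h1
      rw [pow_succ, pow_succ] at h2
      have h3 : 0 < M ^ n₀ := by positivity
      nlinarith
    obtain ⟨S, hSe⟩ : ∃ S : Finset ℕ, S = (Finset.Ico J (64 * J)).filter
      (fun j => Burst ε ν T' u p f b k j) := ⟨_, rfl⟩
    have hS : 50 * S.card ≤ 64 * J + 63 := by
      unfold Many at hcon
      have hfin : {j | N < 64 * (j + 1) ∧ j < N ∧ Burst ε ν T' u p f b k j}.Finite :=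
        (finite_Iio N).subset fun j hj => hj.2.1
      have h1 : S.card ≤ {j | N < 64 * (j + 1) ∧ j < N ∧ Burst ε ν T' u p f b k j}.ncard := by
        rw [← ncard_coe_finset]
        refine ncard_le_ncard ?_ hfin
        intro j hj
        have hj' : j ∈ S := hj
        rw [hSe, Finset.mem_filter, Finset.mem_Ico] at hj'
        exact ⟨by omega, by omega, hj'.2⟩
      omega
    have key : ∀ ρ ∈ Pool.Agent.H305.EG.AT 64 S J, ∀ σ ∈ Ioc 0 ρ, ∀ t t', 0 < t → t < t' → t' < T' →
        ν * (T' - t) ≤ ρ ^ 2 →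
        ∫ τ in Ioc t t', Pool.Agent.H305.EG.net ν (Pool.Agent.H305.OS.cw u τ) (p τ) (weight f b σ k)
          ≤ ε * ν ^ 2 * ρ := by
      intro ρ hρ σ hσ t t' h1 h2 h3 h4
      have h6 : T' - ρ ^ 2 / ν ≤ t := by
        have : T' - t ≤ ρ ^ 2 / ν := by
          rw [le_div_iff₀ hν]
          linarith
        linarith
      obtain ⟨j, hj1, hj2, hj3, hj4⟩ := hρ
      have hnb : ¬ Burst ε ν T' u p f b k j := fun hb => hj3 (by
        rw [hSe, Finset.mem_filter, Finset.mem_Ico]
        exact ⟨⟨hj1, hj2⟩, hb⟩)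
      have h5 : ∫ t in t..t', net ν (u t) (p t) (weight f b σ k) ≤ ε * ν ^ 2 * ρ := by
        by_contra h7
        exact hnb ⟨ρ, hj4, σ, hσ, t, t', h1, h6, h2, h3, not_le.1 h7⟩
      rw [intervalIntegral.integral_of_le h2.le] at h5
      refine le_trans (le_of_eq ?_) h5
      refine setIntegral_congr_fun measurableSet_Ioc fun τ hτ => ?_
      exact (net_eq hH ⟨h1.trans hτ.1, (hτ.2.trans_lt h3).trans_le hT'.2⟩ _).symm
    have hH' : Pool.Agent.H305.OS.HS ν T' u p := Pool.Agent.H305.SL.HS_mono hH hT'.2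
    have hCA : Pool.Agent.H305.EG.CA ν T' u p (Pool.Agent.H305.EG.AT 64 S J) f b (ε * ν ^ 2) := by
      intro ρ hρ t t' h1 h2 h3 h4
      have hρ0 : 0 < ρ := Pool.Agent.H305.EG.AT_pos hρ
      rcases (by omega : k = 0 ∨ k = 1) with h0 | h0
      · refine Pool.Agent.H305.EG.tent_le hH' h1 h3 hρ0 fun σ hσ => ?_
        have h5 := key ρ hρ σ ⟨hσ.1, hσ.2.le⟩ t t' h1 h2 h3 h4
        have e : weight f b σ k = (Pool.Agent.H305.EF.nbh f b σ).indicator 1 := by
          funext x
          unfold weight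
          rw [h0, pow_zero]
          by_cases hx : dsq f b x < σ ^ 2
          · rw [if_pos hx, indicator_of_mem (by exact hx)]
            rfl
          · rw [if_neg hx, indicator_of_notMem (by exact hx)]
        rw [← e]
        exact h5
      · have h5 := key ρ hρ ρ ⟨hρ0, le_rfl⟩ t t' h1 h2 h3 h4
        have e : weight f b ρ k = fun x => max (1 - Pool.Agent.H305.EG.dsf f b x / ρ ^ 2) 0 := by
          funext x
          unfold weight
          rw [h0, pow_one]
          have hρ2 : 0 < ρ ^ 2 := pow_pos hρ0 2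
          have e : Pool.Agent.H305.EG.dsf f b x = dsq f b x := rfl
          by_cases hx : dsq f b x < ρ ^ 2
          · rw [if_pos hx, max_eq_left, e]
            rw [e, sub_nonneg, div_le_one hρ2]
            exact hx.le
          · rw [if_neg hx, max_eq_right]
            rw [e, sub_nonpos, one_le_div hρ2]
            exact not_lt.1 hx
        rw [← e]
        exact h5
    have hd : (1 / 4 : ℝ) ^ N ≤ Pool.Agent.H305.EG.sc (128 * J) := by
      have e1 : (1 / 4 : ℝ) ^ N = (1 / 2) ^ (2 * N) := by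
        rw [pow_mul]
        norm_num
      rw [e1]
      exact pow_le_pow_of_le_one (by norm_num) (by norm_num) (by omega)
    have hd0 : (0 : ℝ) < (1 / 4) ^ N := by positivity
    intro t ht x hx i
    have hx' : x ∈ Pool.Agent.H305.EF.nbh f b (Pool.Agent.H305.EG.sc (128 * J)) :=
      lt_of_lt_of_le hx (pow_le_pow_left₀ hd0.le hd 2)
    refine (hcr T u p hH s hs hEs T' hT'.1 hT'.2 m f hm hf b J S hJ3 hS hCA t
      ⟨by linarith [ht.1], ht.2⟩ x hx' i).trans ?_
    exact pow_le_pow_right₀ (by norm_num) hJ1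
  refine ⟨?_, ?_⟩
  · intro T' hT' m f b hm hf N hN hbig k hk
    obtain ⟨t, ht, htT, x, hx, i, hi⟩ := hbig
    by_contra hcon
    have h1 := main T' hT' m f b hm hf N hN k hk hcon
    refine absurd hi (not_lt.2 ?_)
    rcases lt_or_eq_of_le ht.2 with h2 | h2
    · exact h1 t ⟨ht.1, h2⟩ x hx i
    · have h3 : ContinuousAt (fun τ => |u τ x i|) t :=
        (u_cont hH ⟨by linarith [hT'.1], htT⟩ x i).abs
      have h4 : Filter.Tendsto (fun τ => |u τ x i|) (nhdsWithin t (Iio t)) (nhds |u t x i|) :=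
        h3.tendsto.mono_left nhdsWithin_le_nhds
      refine le_of_tendsto h4 ?_
      filter_upwards [Ioo_mem_nhdsLT ht.1] with τ hτ
      exact h1 τ ⟨hτ.1, hτ.2.trans_le ht.2⟩ x hx i
  · intro m₀ f₀ b₀ hun
    obtain ⟨b, hb, hs'⟩ := Pool.Agent.H305.EG.sing_sub hH (by linarith) f₀ b₀ (fun d hd M => by
      obtain ⟨t, ht, x, hx, i, hi⟩ := hun d hd M
      exact ⟨t, ht, x, hx, i, hi⟩)
    refine ⟨b, hb, ?_⟩
    intro m f hm hf N hN k hk
    by_contra hcon
    have h1 := main T ⟨hsT, le_rfl⟩ m f b hm hf N hN k hk hcon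
    have hd : (0 : ℝ) < (1 / 4) ^ N := by positivity
    obtain ⟨t, ht, x, hx, i, hi⟩ := hs' _ (Pool.Agent.H305.EG.nbh_mem f b hd) _ hd (2 ^ N)
    exact absurd hi (not_lt.2 (h1 t ht x hx i))

end Pool.Agent.Results.MP_6bf1e5_an.EnergyInflow
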