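import Pool.Agent.H226.GM.Main2
import Pool.Agent.H226.GM.Coef

/-!
# Finite-time blow-up for the Navier-Stokes equations under sparse linear constraints, and for
Galerkin projections

For a closed subspace `H` of the divergence-free fields in `L²` of the torus, with orthogonal
projection `P`, consider the Galerkin projection

  `∂ₜ u + P (u · ∇ u) = ν P Δ u`, `u = P u`,

of the three-dimensional periodic Navier-Stokes equations. The nonlinearity and the viscosity are
those of the Navier-Stokes equations, nothing is averaged and no force is added. If `H` is given by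
linear constraints `∫ u · ψ = 0`, these are the Navier-Stokes equations with the reaction forces of the
constraints, which do no work. For finite dimensional `H` the solutions are global, and for `H` the
space of all divergence-free fields of `L²` these are the Navier-Stokes equations.

The theorem gives an orthonormal sequence `φ_m` and constraints `ψ_{n,i}`, `0 ≤ i ≤ n + 1`, which are
trigonometric polynomials, of degree at least `4^(n³)`: only `O((log R)^(2/3))` of the constraints have
a degree `≤ R`, whereas the dimension of the space of all divergence-free fields with frequencies `≤ R` is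
of the order `R³`. Let `p ≥ 1`. For EVERY space `H` which is the closed span of smooth fields, which
contains the fields `φ_m(p x)` and whose generating fields satisfy the constraints
`∫ w(x) · ψ_{n,i}(p x) dx = 0`, smooth solutions blow up, for every viscosity, for a set of data which
is dense in the norm of `H^s` for all `s < 1/2`, in arbitrarily short time `T*`. The norms of `H^r`, for
ALL `r > 0`, and of `L³` are unbounded at the blow-up time (only the energy is bounded), and
`∫_0^{T*} max |curl u| dt = ∞`. The solution is the same for all these spaces. The largest one is given by the sparse constraints alone. Another one is the space `H_p` which contains the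
fields `φ_m(p x)` and all divergence-free Fourier modes with frequencies outside `(pℤ)³` (a set of
density `1 - p⁻³` which contains all nonzero frequencies of size less than `p`). The projection
onto `H_p` is bounded in all Sobolev spaces, so the projected nonlinearity satisfies the same Sobolev
estimates as that of the Navier-Stokes equations, and it has the same cancellation `(P (u · ∇ u), u) = 0`.

The library has a blow-up theorem for Galerkin projections of the Navier-Stokes equations in `ℝ³` onto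
the closed span of a lacunary sequence of fields (`GalerkinBlowup` of this page, data dense in `L²`).
New here are the large spaces (their complement is sparse instead of the space), the density of the data
in `H^s` up to the critical exponent, the blow-up of all norms, and the construction with trigonometric
polynomials on the torus.

Idea of the proof. The fields are

  `φ_m = - n_m⁻¹ (∂₂ Θ_m, 0, - ∂₀ Θ_m)`, `Θ_m = ψ_m + e_m χ_m`, `N_m = R_m²`, `R_m = 2^((m+2)³)`,
  `ψ_m = (∑_{N_m ≤ j < 2N_m} sin 2πj x₀) (∑_{N_m ≤ j < 2N_m} cos 2πj x₁)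
      (∑_{16N_m ≤ j < 17N_m} (2πj)⁻¹ sin 2πj x₂)`,

where `χ_m` is a single product of frequencies comparable to `N_{m-1}` and
`e_m = exp (- 2^(-13) (R_{m-1} / R_{m-2})^5)` is extremely small. For these fields almost all triads
vanish, by the choice of the frequencies in `x₂`, and the projected equation for
`u = ∑ a_m(t) φ_m` is

  `a_m' = (∑_{n<m} c_{nm} a_n - ν g_m) a_m - ∑_{l>m} c_{ml} a_l² + p_{m-1} a_{m-1}² - p_m a_m a_{m+1}`

with `R_m^5 / 2 ≤ c_{m,m+1}`, `|c_{nl}| ≤ 2^10 R_n^5` (these are the largest couplings which are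
compatible with the three-dimensional scaling), `R_m^4 ≤ g_m ≤ 2^14 R_m^4` and
`p_m ≈ e_{m+1}` up to powers of `R_{m+1}` (`Basis`, `s_basis`, `f_cc`, `f_ccu`, `f_pp`, `f_gg`). The
energy of the mode `m` goes into the mode `m+1`, like in a planar rotor
`x' = - c y², y' = c x y`, in the time `log(R_m) R_m^(-5)`, which is shorter than the time
`R_{m+1}^(-4)` of the dissipation. The modes `l ≥ m+2`, which are also coupled to `m` and `m+1`,
stay negligible during this time, since they begin with the tiny pumps: their energy is compared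
with `exp (2 ∑_{n≤m+1} G_n ∫|a_n| - b_{m+1})² a_{m+1}²` (`Sys.ratio`). Once `a_{m+1}` is large, the
pumped mode `m+2` grows like `exp (c_{m+1,m+2} ∫ a_{m+1})` and the next stage begins; a fixed
part of the energy is transferred (`St.next`). The sum of the times of all stages is finite, so that
`sup_m R_m |a_m(t)|` cannot stay bounded (`blowP`). The cascade may begin at an arbitrarily high level
`m₀` with an amplitude not much larger than `R_{m₀}^(-1)`, which is small in `H^s` for `s < 1/2`; it
is so fast that the lower modes, with given initial values, do not disturb it (`s_low`, `blow2`). The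
reduction of smooth solutions of the projected equations to the infinite system is `s_red`, local
existence is `s_loc1`, `s_loc2`, `s_loc3`.

The larger spaces: the constraints of the level `n` are the components orthogonal to all `φ_m` of
`φ_i · ∇ φ_n + φ_n · ∇ φ_i`, `i ≤ n`, and of `Δ φ_n` (`cst`; their divergence-free parts are the
`ψ_{n,i}`). If the test fields are orthogonal to these, the solution in the closed span of the `φ_m` is
a solution in the larger space (`s_adm`, the projection onto this closed span preserves smoothness,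
`s_prS`), and by uniqueness (`s_uniP`) and local existence (`s_locS`) each smooth solution in the
larger space with data in the small space stays there (`s_ret`). The projection onto `H_p` is bounded in
the Sobolev spaces because the frequencies of the `φ_m` lie in disjoint sets (`s_hs`, `s_hsb`,
`s_projP`). 

Continuation: if the integral of the maximum of the vorticity is finite, the integral of the strain
`∑_{n<m} c_{nm} |a_n|` is at most `C m^10` (the norms of Dirichlet kernels in `L¹` are logarithmic), and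
the growth `exp (C m^10)` is compensated by the extremely small pumps (`s_ker1`, `s_l1`, `s_vor`,
`s_apr2`, `s_cri2`, `s_bkm`). In the same way a solution for which the cascade stops at some level can
be continued (`s_tls`), hence all stages of the cascade are completed before the maximal time: for all
large `m` there is a time `t_m` with `a_m(t_m) ≥ c 2^(-29m)` (`s_nxt`, `s_cas`, `s_bl2`, `s_nos2`), so that
the norm of `H^r` is at least `c R_m^(2r) 2^(-29m)` at this time, and similarly for `L³` (`s_unb`; the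
norms of the `φ_m` in `L^(3/2)` are `O(R_m⁻¹)`).
-/

open MeasureTheory Set Filter Topology
open scoped ContDiff ENNReal

namespace Pool.Agent.Results.MP_6bf1e5_an.GalerkinBlowup

/-- The space `ℝ³`. -/
abbrev V := Fin 3 → ℝ

/-- `f` is `1`-periodic in each of the three coordinates. -/
def Periodic {F : Type*} (f : V → F) : Prop :=
  ∀ (j : Fin 3) (x : V), f (x + Pi.single j 1) = f x

/-- The partial derivative `∂_j f`. -/
noncomputable def D (j : Fin 3) (f : V → ℝ) (x : V) : ℝ := fderiv ℝ f x (Pi.single j 1)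

/-- The vorticity `curl v`. -/
noncomputable def curl (v : V → V) (x : V) : V :=
  ![D 1 (fun y => v y 2) x - D 2 (fun y => v y 1) x,
    D 2 (fun y => v y 0) x - D 0 (fun y => v y 2) x,
    D 0 (fun y => v y 1) x - D 1 (fun y => v y 0) x]

/-- The inner product `∫ u · v` of `L²`, over the period cell `[0, 1]³`. -/
noncomputable def ip2 (u v : V → V) : ℝ := ∑ i, ∫ x in Icc (0 : V) 1, u x i * v x i

/-- The divergence-free Fourier modes `x ↦ cos (2π k·x) a` and `x ↦ sin (2π k·x) a`, `k · a = 0`,
of the frequency `k ∈ ℤ³`. -/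
def Mode (k : Fin 3 → ℤ) : Set (V → V) :=
  {w | ∃ a : V, ∑ j, (k j : ℝ) * a j = 0 ∧
    (w = (fun x => Real.cos (2 * Real.pi * ∑ j, (k j : ℝ) * x j) • a) ∨
      w = fun x => Real.sin (2 * Real.pi * ∑ j, (k j : ℝ) * x j) • a)}

/-- The fields `x ↦ φ m (p x)`, `m = 0, 1, 2, …`. -/
def Scaled (φ : ℕ → V → V) (p : ℕ) : Set (V → V) := {w | ∃ m, w = fun x => φ m ((p : ℝ) • x)}

/-- The fields `x ↦ φ m (p x)` and all divergence-free Fourier modes whose frequency is not in
`(pℤ)³`. -/
def Fam (φ : ℕ → V → V) (p : ℕ) : Set (V → V) :=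
  Scaled φ p ∪ {w | ∃ k : Fin 3 → ℤ, (∃ j, ¬((p : ℤ) ∣ k j)) ∧ w ∈ Mode k}

/-- The sum over the components of `v` of `|∫ vᵢ(x) exp (-2πi k·x) dx|²`. -/
noncomputable def coeffSq (v : V → V) (k : Fin 3 → ℤ) : ℝ :=
  ∑ i, ((∫ x in Icc (0 : V) 1, v x i * Real.cos (2 * Real.pi * ∑ j, (k j : ℝ) * x j)) ^ 2
    + (∫ x in Icc (0 : V) 1, v x i * Real.sin (2 * Real.pi * ∑ j, (k j : ℝ) * x j)) ^ 2)

/-- The square `∑_k (1 + |k|²)^s |v̂(k)|²` of the norm of the Sobolev space `H^s` (it may be
infinite). -/
noncomputable def sobSq (s : ℝ) (v : V → V) : ℝ≥0∞ :=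
  ∑' k : Fin 3 → ℤ, ENNReal.ofReal ((1 + ∑ j, (k j : ℝ) ^ 2) ^ s * coeffSq v k)

/-- `v` is a smooth periodic divergence-free field. -/
structure SmoothDivFree (v : V → V) : Prop where
  smooth : ContDiff ℝ ∞ v
  periodic : Periodic v
  divfree : ∀ x, ∑ j, D j (fun y => v y j) x = 0

/-- `v` is in the closed linear span of `Φ` in `L²`. -/
def InClosedSpan (Φ : Set (V → V)) (v : V → V) : Prop :=
  ∀ ε > 0, ∃ w ∈ Submodule.span ℝ Φ, ip2 (v - w) (v - w) < ε

/-- `u` is a smooth solution, for the times in `[0, T)`, of the Galerkin projection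
`∂ₜ u + P (u · ∇ u) = ν P Δ u`, `u = P u`, of the Navier-Stokes equations with viscosity `ν`
onto the closed linear span of `Φ`. Here `P` is the orthogonal projection of `L²` onto this space,
in other words: `u(t)` is in the closed span of `Φ`, and the Navier-Stokes equations hold when they
are tested with the elements of `Φ`. -/
structure IsSol (Φ : Set (V → V)) (ν T : ℝ) (u : ℝ → V → V) : Prop where
  smooth : ContDiffOn ℝ ∞ (fun z : ℝ × V => u z.1 z.2) (Ico 0 T ×ˢ univ)
  periodic : ∀ t ∈ Ico 0 T, Periodic (u t)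
  divfree : ∀ t ∈ Ico 0 T, ∀ x, ∑ j, D j (fun y => u t y j) x = 0
  mem : ∀ t ∈ Ico 0 T, InClosedSpan Φ (u t)
  eq : ∀ t ∈ Ioo 0 T, ∀ w ∈ Φ, ∑ i, ∫ x in Icc (0 : V) 1,
    (deriv (fun s => u s x i) t + ∑ j, u t x j * D j (fun y => u t y i) x
      - ν * ∑ j, D j (D j (fun y => u t y i)) x) * w x i = 0

/-- `Φ` is an admissible set of test fields: it consists of smooth periodic divergence-free fields
`w` which satisfy the linear constraints `∫ w(x) · ψ n i (p x) dx = 0`, and it contains the fields
`x ↦ φ m (p x)`. -/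
structure Admissible (φ : ℕ → V → V) (ψ : ℕ → ℕ → V → V) (p : ℕ) (Φ : Set (V → V)) : Prop where
  smooth : ∀ w ∈ Φ, SmoothDivFree w
  scaled : Scaled φ p ⊆ Φ
  constraint : ∀ w ∈ Φ, ∀ n i, ip2 w (fun x => ψ n i ((p : ℝ) • x)) = 0

open Pool.Agent.H226.GB H459R3.NS

lemma span_iff (Φ : Set (V → V)) (v : V → V) : InClosedSpan Φ v ↔ InSpan Φ v := by
  have e : ∀ w : V → V, ip2 (v - w) (v - w) = ∑ i, ∫ x in cube, (v x i - w x i) ^ 2 := by
    intro w
    unfold ip2
    refine Finset.sum_congr rfl fun i _ => ?_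
    refine integral_congr_ae (Eventually.of_forall fun x => ?_)
    show (v x i - w x i) * (v x i - w x i) = (v x i - w x i) ^ 2
    ring
  unfold InClosedSpan InSpan
  simp only [e]

lemma sol_iff (Φ : Set (V → V)) (ν T : ℝ) (u : ℝ → V → V) : IsSol Φ ν T u ↔ IsPr Φ ν T u :=
  ⟨fun h => ⟨h.smooth, h.periodic, h.divfree, fun t ht => (span_iff Φ _).1 (h.mem t ht), h.eq⟩,
    fun h => ⟨h.smooth, h.per, h.divfree, fun t ht => (span_iff Φ _).2 (h.mem t ht), h.eq⟩⟩

lemma scaled_eq (p : ℕ) : Scaled phi p = Sp1 p := by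
  ext w
  constructor
  · rintro ⟨m, rfl⟩
    exact ⟨m, fun _ => rfl⟩
  · rintro ⟨m, h⟩
    exact ⟨m, funext h⟩

lemma fam_eq (p : ℕ) : Fam phi p = Fp phi p := by
  ext w
  constructor
  · rintro (⟨m, rfl⟩ | ⟨k, hk, a, ha, h⟩)
    · exact Or.inl ⟨m, fun _ => rfl⟩
    · refine Or.inr ⟨k, a, hk, ha, ?_⟩
      rcases h with rfl | rfl
      · exact Or.inl fun _ => rfl
      · exact Or.inr fun _ => rfl
  · rintro (⟨m, h⟩ | ⟨k, a, hk, ha, h⟩)
    · exact Or.inl ⟨m, funext h⟩
    · refine Or.inr ⟨k, hk, a, ha, ?_⟩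
      rcases h with h | h
      · exact Or.inl (funext h)
      · exact Or.inr (funext h)

lemma modes_mem (m : ℕ) : phi m ∈ Submodule.span ℝ {w | ∃ k : Fin 3 → ℤ, k ≠ 0 ∧ w ∈ Mode k} := by
  refine Submodule.span_mono ?_ (s_modes m)
  rintro w ⟨k, a, ⟨j, hj⟩, ha, h⟩
  refine ⟨k, ?_, a, ha, ?_⟩
  · rintro rfl
    exact hj (by simp)
  · rcases h with h | h
    · exact Or.inl (funext h)
    · exact Or.inr (funext h)

lemma sob_eq (s : ℝ) (v : V → V) : sobSq s v = hs s v := rfl

lemma sp_of {v : V → V} (h : SmoothDivFree v) (i : Fin 3) : SP (fun x => v x i) :=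
  ⟨contDiff_pi.1 h.smooth i, fun j x => congrFun (h.periodic j x) i⟩

lemma of_sp {v : V → V} (h : ∀ i, SP (fun x => v x i))
    (hd : ∀ x, ∑ j, pd j (fun y => v y j) x = 0) : SmoothDivFree v :=
  ⟨contDiff_pi.2 fun i => (h i).smooth, fun j x => funext fun i => (h i).per j x, hd⟩

lemma modes_all {w : V → V} (h : w ∈ DP univ) :
    w ∈ Submodule.span ℝ {w | ∃ k : Fin 3 → ℤ, w ∈ Mode k} := by
  refine Submodule.span_mono ?_ h
  rintro w ⟨k, -, a, ha, h⟩
  refine ⟨k, a, ha, ?_⟩
  rcases h with h | h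
  · exact Or.inl (funext h)
  · exact Or.inr (funext h)

lemma adm_iff {ψ : ℕ → ℕ → V → V} (hψ : ∀ n i l, SP (fun x => ψ n i x l))
    (h : ∀ n i, ∃ q : V → ℝ, SP q ∧ ∀ x l, cst n i x l = ψ n i x l + pd l q x) {p : ℕ} (hp : 1 ≤ p)
    (Φ : Set (V → V)) : Admissible phi ψ p Φ ↔ Adm p Φ := by
  have key : ∀ w : V → V, SmoothDivFree w → ∀ n i,
      ∑ l, ∫ x in cube, w x l * cst n i ((p : ℝ) • x) l = ip2 w (fun x => ψ n i ((p : ℝ) • x)) := by
    intro w hw n i
    obtain ⟨q, hq, hqe⟩ := h n i
    exact f_cstψ hp (hψ n i) hq hqe (sp_of hw) hw.divfree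
  constructor
  · intro hΦ
    refine ⟨fun w hw => sp_of (hΦ.smooth w hw), fun w hw => (hΦ.smooth w hw).divfree, ?_,
      fun w hw n i => ?_⟩
    · rw [f_sc, ← scaled_eq]; exact hΦ.scaled
    · rw [key w (hΦ.smooth w hw)]; exact hΦ.constraint w hw n i
  · intro hΦ
    have h1 : ∀ w ∈ Φ, SmoothDivFree w := fun w hw => of_sp (hΦ.sp w hw) (hΦ.div w hw)
    refine ⟨h1, ?_, fun w hw n i => ?_⟩
    · rw [scaled_eq, ← f_sc]; exact hΦ.sc
    · rw [← key w (h1 w hw)]; exact hΦ.orth w hw n i

lemma bkm_of {T : ℝ} {u : ℝ → V → V}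
    (h : ∫⁻ t in Ioo 0 T, ⨆ x, ENNReal.ofReal |vo1 (u t) x| = ⊤) :
    ∫⁻ t in Ioo 0 T, ⨆ x, ‖curl (u t) x‖ₑ = ⊤ := by
  rw [← top_le_iff, ← h]
  refine lintegral_mono fun t => iSup_mono fun x => ?_
  rw [← ofReal_norm]
  refine ENNReal.ofReal_le_ofReal ?_
  have h1 := norm_le_pi_norm (curl (u t) x) 1
  rw [Real.norm_eq_abs] at h1
  exact h1

/-- **Theorem.** There are `L²`-orthonormal, mean-free, divergence-free trigonometric polynomials
`φ 0, φ 1, …`, and divergence-free trigonometric polynomials `ψ n i`, `0 ≤ i ≤ n + 1`, orthogonal to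
all `φ m`, such that `ψ n i` is zero or has a non-zero Fourier coefficient with a frequency of size
`≥ 4 ^ (n ^ 3)`, with the following properties. Let `p ≥ 1`.

(0) Let `Fam φ p` consist of the fields `φ m (p x)` and of all divergence-free Fourier modes with
frequencies outside `(pℤ)³`. This is an admissible set of test fields. (So is the set of all smooth
divergence-free fields `w` with `∫ w(x) · ψ n i (p x) dx = 0` for all `n`, `i`.)

(1) The orthogonal projection `P` onto the closed linear span of `Fam φ p` is bounded in all Sobolev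
spaces: for smooth divergence-free `f` there is a smooth divergence-free field `g = P f`, and
`‖P f‖ ≤ C(s) ‖f‖` in `H^s`, for all `s ≥ 0`.

(2) Let `s < 1/2`, `ν₀ ≥ 0` and `T > 0`. In the linear span of the fields `φ m (p x)` there is a set of
initial velocities `u₀`, dense in the norm of `H^s`, such that for every viscosity `ν ∈ [0, ν₀]` there
are `0 < Tm < T` and a field `u` on the time interval `[0, Tm)` with `u(0) = u₀` which is, for every
admissible set `Φ` of test fields, a smooth solution of the Galerkin projection of the Navier-Stokes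
equations onto the closed span of `Φ`, and every smooth solution with this initial velocity is a
restriction of `u`: there is no smooth solution beyond the time `Tm`. The norm of `u(t)` in `H^r` is
unbounded on `[0, Tm)` for all `r > 0`, the norm of `u(t)` in `L³` is unbounded on `[0, Tm)`, and
`∫_0^{Tm} max |curl u(t)| dt = ∞`. -/
theorem result : ∃ (φ : ℕ → V → V) (ψ : ℕ → ℕ → V → V),
    (∀ m, φ m ∈ Submodule.span ℝ {w | ∃ k : Fin 3 → ℤ, k ≠ 0 ∧ w ∈ Mode k}) ∧
    (∀ m n, ip2 (φ m) (φ n) = if m = n then 1 else 0) ∧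
    (∀ n i, ψ n i ∈ Submodule.span ℝ {w | ∃ k : Fin 3 → ℤ, w ∈ Mode k}) ∧
    (∀ n i m, ip2 (ψ n i) (φ m) = 0) ∧
    (∀ n i, n + 1 < i → ψ n i = 0) ∧
    (∀ n i, ψ n i ≠ 0 → ∃ k : Fin 3 → ℤ, (4 : ℤ) ^ (n ^ 3) ≤ |k 2| ∧ coeffSq (ψ n i) k ≠ 0) ∧
    ∀ p : ℕ, 1 ≤ p →
      Admissible φ ψ p (Fam φ p) ∧
      (∃ C : ℝ → ℝ, ∀ f, SmoothDivFree f → ∃ g, SmoothDivFree g ∧ InClosedSpan (Fam φ p) g ∧
        (∀ w ∈ Fam φ p, ip2 (f - g) w = 0) ∧
        ∀ s : ℝ, 0 ≤ s → sobSq s g ≤ ENNReal.ofReal (C s) * sobSq s f) ∧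
      ∀ s ν₀ T ε : ℝ, s < 1 / 2 → 0 ≤ ν₀ → 0 < T → 0 < ε →
      ∀ w ∈ Submodule.span ℝ (Scaled φ p), ∃ u₀ ∈ Submodule.span ℝ (Scaled φ p),
        sobSq s (u₀ - w) < ENNReal.ofReal ε ∧ ∀ ν : ℝ, 0 ≤ ν → ν ≤ ν₀ →
          ∃ (Tm : ℝ) (u : ℝ → V → V), 0 < Tm ∧ Tm < T ∧ u 0 = u₀ ∧
            (∀ r : ℝ, 0 < r → ∀ B : ℝ, ∃ t ∈ Ico 0 Tm, ENNReal.ofReal B < sobSq r (u t)) ∧
            (∀ B : ℝ, ∃ t ∈ Ico 0 Tm,
              B < ∫ x in Icc (0 : V) 1, (∑ i, u t x i ^ 2) ^ (3 / 2 : ℝ)) ∧
            ∫⁻ t in Ioo 0 Tm, ⨆ x, ‖curl (u t) x‖ₑ = ⊤ ∧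
            ∀ Φ : Set (V → V), Admissible φ ψ p Φ → IsSol Φ ν Tm u ∧
              ∀ (T' : ℝ) (v : ℝ → V → V), IsSol Φ ν T' v → v 0 = u₀ →
                T' ≤ Tm ∧ ∀ t ∈ Ico 0 T', v t = u t := by
  obtain ⟨ψ, p1, p2, p3, p4⟩ := f_psi f_spec
  have hψ : ∀ n i l, SP (fun x => ψ n i x l) := fun n i =>
    (s_nz.2.1 univ _ (s_nz.2.2 univ (p1 n i))).1
  refine ⟨phi, ψ, modes_mem, f_bas.on, fun n i => modes_all (p1 n i), fun n i m => ?_, p3, p4,
    fun p hp => ⟨?_, ?_, fun s ν₀ T ε hs hν₀ hT hε w hw => ?_⟩⟩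
  · obtain ⟨q, hq, hqe⟩ := p2 n i
    have h1 := f_cstψ le_rfl (hψ n i) hq hqe (w := phi m) (f_bas.sp m) (f_bas.div m)
    simp only [Nat.cast_one, one_smul] at h1
    have h2 := f_ort.2 n i m
    rw [f_ip_comm] at h2
    show ip (ψ n i) (phi m) = 0
    rw [f_ip_comm]
    exact h1.symm.trans h2
  · rw [adm_iff hψ p2 hp, fam_eq]
    exact f_admF p hp
  · obtain ⟨C, hC⟩ := f_proj p hp
    refine ⟨C, fun f hf => ?_⟩
    obtain ⟨g, h1, h2, h3, h4, h5⟩ := hC f (sp_of hf) hf.divfree
    refine ⟨g, of_sp h1 h2, ?_, fun w hw => ?_, h5⟩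
    · rw [fam_eq, span_iff]; exact h3
    · rw [fam_eq] at hw
      exact h4 w hw
  rw [scaled_eq] at hw ⊢
  obtain ⟨u₀, h1, h2, h3⟩ := f_main3 f_adm f_ret f_scl f_scl2 f_bkm f_nos2 f_unb hp
    hν₀ hT (e := 1) (Or.inl rfl) (s := s) (by push_cast; exact hs) hw hε
  refine ⟨u₀, h1, h2, fun ν hν hνν => ?_⟩
  obtain ⟨Tm, u, a1, a2, a3, a4, a6, a7, a5⟩ := h3 ν hν hνν
  refine ⟨Tm, u, a1, a2, a3, a4, a6, bkm_of a7, fun Φ hΦ => ?_⟩
  obtain ⟨b1, b2⟩ := a5 Φ ((adm_iff hψ p2 hp Φ).1 hΦ)
  exact ⟨(sol_iff Φ ν Tm u).2 b1, fun T' v hv hv0 => b2 T' v ((sol_iff Φ ν T' v).1 hv) hv0⟩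

end Pool.Agent.Results.MP_6bf1e5_an.GalerkinBlowup
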