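import Pool.Agent.H226.OF.Phys

/-!
# One octave of the local energy flux decides the regularity of Navier-Stokes flows

Let `u` be a smooth periodic solution of the Navier-Stokes equations with mean zero and energy at
most `E` on a time interval `[0, T)`, and let `t₀ < T`. Look at one single octave `[N, 2N]` of
frequencies, and at the spheres `|k|² = n`, `N² < n ≤ 4N²`, in it. Let `Π_n(t)` be the rate at which
the triads whose three frequencies all lie in the band `λ ≤ |k| ≤ L` transfer energy through the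
sphere, to the frequencies `|k|² ≥ n`, and let `ν D_n(t)` be the dissipation in `|k|² ≥ n`.

If, for enough of the spheres, `Π_n ≤ c ν D_n + g_n` with a constant `c < 1` and with a rest `g_n`
of integral at most `κ N^(-5/4)` on `(t₀, T)`, then `∫ |∇ u|²` is at most `N^(5/2) / κ` and `u` is
bounded up to the time `T`. Here `κ` depends on `ν`, `c` and `E` only, and `N` can be any number
with `N^(3/4) ≥ (1 + ∫ |∇ u(t₀)|²) / κ`. The number of the spheres is large enough if `λ^(5/2) log N` and `λ N log N` are at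
most `κ` times the number of the spheres: for all the spheres of the octave, `λ` may be as large as
`(κ' N² / log N)^(2/5)`; for thinner sets `λ` is smaller; for `λ = 0` one single sphere is enough.
`L` can be any number above `N^(5/4) / κ`.

So the formation of a singularity at the time `T` needs that for all `t₀ < T`, in EVERY octave
`N ≥ C (1 + ∫ |∇ u(t₀)|²)^(4/3)`, the energy flux of the local triads, frequencies between `N^(4/5)` (up to a logarithm) and `C N^(5/4)`, exceeds `c` times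
the dissipation beyond the sphere by more than `κ N^(-5/4)` in total in the time `(t₀, T)`, for
all spheres of the octave except for a small proportion. The nonlocal triads, in which the octave interacts with much
larger or much smaller scales, do not matter, and there is no condition on any other octave. The
condition is one-sided and it is void if `Π_n` is small.

Idea of the proof. The weighted energy `∑ W(|k|) |û(k)|²` does not grow beyond `3 E`, where `W` is
`1` for `|k| ≤ N`, grows by the factor `M ≈ C N^(5/4)` in equal proportions at the spheres of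
the given set, is constant up to the frequency `K ≈ C N^(5/4)` and grows like `|k|²` from there. The
growth of `W` in the octave is a superposition of the spheres, so the band triads are controlled by
the hypothesis; the jumps are so small that a triad with a frequency below `λ` sees
nearly equal weights, and these triads, those with a frequency above `L` and those that see
the part of `W` beyond `K` are absorbed by the dissipation, with the bound of the energy.
Since the energy beyond `2N` is at most `3 E / M`, which is small at the critical scale `K`, this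
closes.
-/

open MeasureTheory Set Filter Topology
open scoped ContDiff

namespace Pool.Agent.Results.MP_6bf1e5_an.OctaveFlux

/-- The space `ℝ³`. -/
abbrev V := Fin 3 → ℝ

/-- The frequencies, `ℤ³`. -/
abbrev K := Fin 3 → ℤ

/-- The space `ℂ³`. -/
abbrev C3 := Fin 3 → ℂ

/-- `(u, p)` is a smooth `1`-periodic solution of the Navier-Stokes equations with viscosity `ν`,
without force and with mean zero, on the time interval `[0, T)`: `u` and `p` are `C^∞` on
`[0, T) × ℝ³` and `1`-periodic in each coordinate of `x`, `div u = 0`,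
`∂ₜ uᵢ + ∑ⱼ uⱼ ∂ⱼ uᵢ = ν Δ uᵢ - ∂ᵢ p`, and `∫ u(0, x) dx = 0`. -/
structure IsSol (ν T : ℝ) (u : ℝ → V → V) (p : ℝ → V → ℝ) : Prop where
  smooth_u : ContDiffOn ℝ ∞ (fun z : ℝ × V => u z.1 z.2) (Ico 0 T ×ˢ univ)
  smooth_p : ContDiffOn ℝ ∞ (fun z : ℝ × V => p z.1 z.2) (Ico 0 T ×ˢ univ)
  per_u : ∀ t ∈ Ico 0 T, ∀ (j : Fin 3) (x : V), u t (x + Pi.single j 1) = u t x
  per_p : ∀ t ∈ Ico 0 T, ∀ (j : Fin 3) (x : V), p t (x + Pi.single j 1) = p t x
  divfree : ∀ t ∈ Ico 0 T, ∀ x, ∑ i, fderiv ℝ (fun y => u t y i) x (Pi.single i 1) = 0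
  momentum : ∀ t ∈ Ioo 0 T, ∀ x i,
    deriv (fun s => u s x i) t + ∑ j, u t x j * fderiv ℝ (fun y => u t y i) x (Pi.single j 1)
      = ν * ∑ j, fderiv ℝ (fun z => fderiv ℝ (fun y => u t y i) z (Pi.single j 1)) x
          (Pi.single j 1) - fderiv ℝ (p t) x (Pi.single i 1)
  mean : ∀ i, ∫ x in Icc (0 : V) 1, u 0 x i = 0

/-- `∫ |v|²` over the cube `[0, 1]³`. -/
noncomputable def energy (v : V → V) : ℝ := ∑ i, ∫ x in Icc (0 : V) 1, v x i ^ 2

/-- `∫ |∇v|²` over the cube `[0, 1]³`. -/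
noncomputable def enstrophy (v : V → V) : ℝ :=
  ∑ i, ∑ j, ∫ x in Icc (0 : V) 1, (fderiv ℝ (fun y => v y i) x (Pi.single j 1)) ^ 2

/-- `|k|²`, an integer. -/
def sqlen (k : K) : ℤ := ∑ j, k j ^ 2

/-- The Euclidean length `|k|` of a frequency. -/
noncomputable def len (k : K) : ℝ := Real.sqrt (sqlen k)

/-- `k · a = ∑_j k_j a_j`. -/
noncomputable def dot (k : K) (a : C3) : ℂ := ∑ j, (k j : ℂ) * a j

/-- The Fourier coefficients `∫ exp (-2 π i k · x) v(x) dx` of a `1`-periodic field, the integral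
over the cube `[0, 1]³`. -/
noncomputable def coef (v : V → V) (k : K) : C3 := fun i => ∫ x in Icc (0 : V) 1,
  Complex.exp (-(2 * Real.pi * Complex.I * ∑ j, (k j : ℂ) * (x j : ℂ))) * (v x i : ℂ)

/-- The part of the field in the band of the frequencies `lam ≤ |k| ≤ L`. -/
noncomputable def band (lam L : ℝ) (W : K → C3) (k : K) : C3 :=
  if lam ≤ len k ∧ len k ≤ L then W k else 0

/-- The Fourier coefficient at `k` of the convection term `(v · ∇) v` of the field `v` with the
Fourier coefficients `W`: `∑_{p + q = k} 2 π i (q · W(p)) W(q)`. -/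
noncomputable def convection (W : K → C3) (k : K) : C3 :=
  ∑' p : K, (2 * Real.pi * Complex.I * dot (k - p) (W p)) • W (k - p)

/-- The energy flux through the sphere `|k|² = n` of the field `v` with the Fourier coefficients
`W`: the rate at which the convection term transfers energy (`∑ |W(k)|² / 2`) to the frequencies
`|k|² ≥ n` from the others, `- Re ∑_{|k|² ≥ n} conj (W(k)) · ((v · ∇) v)^(k)`. -/
noncomputable def flux (n : ℕ) (W : K → C3) : ℝ :=
  -∑' k : K, if (n : ℤ) ≤ sqlen k then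
    (∑ i, (starRingEnd ℂ) (W k i) * convection W k i).re else 0

/-- The dissipation, for the viscosity one, in the frequencies `|k|² ≥ n`:
`∑_{|k|² ≥ n} (2 π |k|)² |W(k)|²`. -/
noncomputable def dissipation (n : ℕ) (W : K → C3) : ℝ :=
  ∑' k : K, if (n : ℤ) ≤ sqlen k then (2 * Real.pi * len k) ^ 2 * ∑ i, ‖W k i‖ ^ 2 else 0

/-! ### The definitions above and those of the files with the proofs -/

open Pool.Agent.H226.SW Pool.Agent.X96.HT Pool.Agent.X96.DM

lemma len_eq (k : K) : len k = kn k := by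
  unfold len sqlen kn
  push_cast
  rfl

lemma dot_eq (k : K) (a : C3) : dot k a = dp (kc k) a := by
  unfold dot dp kc
  rw [Fin.sum_univ_three]

lemma coef_eq (v : V → V) : coef v = co v := by
  funext k i
  unfold coef co H459R3.NS.fr H459R3.NS.fc H459R3.NS.ee H459R3.NS.ph H459R3.NS.cube
  refine integral_congr_ae (Eventually.of_forall fun x => ?_)
  simp only
  congr 2
  push_cast
  simp only [Pi.neg_apply, Int.cast_neg, neg_mul, Finset.sum_neg_distrib, mul_neg]

lemma sqlen_nk (k : K) (n : ℕ) : (n : ℤ) ≤ sqlen k ↔ n ≤ nk k := by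
  unfold sqlen nk
  have h : 0 ≤ ∑ j, k j ^ 2 := Finset.sum_nonneg fun j _ => sq_nonneg _
  omega

lemma convection_eq (W : K → C3) (k : K) : convection W k = cvt one1 W k := by
  unfold convection cvt
  refine tsum_congr fun p => ?_
  rw [dot_eq]
  unfold one1
  rw [Complex.ofReal_one, one_smul]

lemma band_eq (lam L : ℝ) (W : K → C3) : band lam L W = hp lam (Pool.Agent.H226.SW.lp L W) := by
  funext k
  unfold band hp Pool.Agent.H226.SW.lp
  rw [len_eq]
  by_cases h1 : lam ≤ kn k <;> by_cases h2 : kn k ≤ L <;> simp [h1, h2]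

lemma flux_eq' {W : K → C3} (hU : RapV W) (hdiv : ∀ k, dp (kc k) (W k) = 0) (h0 : W 0 = 0)
    (hreal : ∀ k, W (-k) = cj (W k)) (n : ℕ) :
    flux n W = -(2 * Real.pi * (T3s (fw (rwt one1) (ix n) W)).re) := by
  rw [← flux_eq hU hdiv h0 hreal n]
  unfold flux
  simp only [sqlen_nk, convection_eq]

lemma dissipation_eq (ν : ℝ) (W : K → C3) (n : ℕ) :
    ν * dissipation n W = ν * (2 * Real.pi) ^ 2 * nt (fun k => ix n k * kn k ^ 2) W := by
  rw [mul_assoc]
  congr 1
  unfold dissipation nt sq2 ix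
  rw [← tsum_mul_left]
  refine tsum_congr fun k => ?_
  simp only [sqlen_nk, len_eq]
  split_ifs
  · ring
  · ring

lemma IsSol.lib {ν T : ℝ} {u : ℝ → V → V} {p : ℝ → V → ℝ} (h : IsSol ν T u p) :
    H459R3.NS.IsSol ν T u p :=
  ⟨h.smooth_u, h.smooth_p, h.per_u, h.per_p, h.divfree, h.momentum⟩

/-- **The energy flux of the band triads in one octave decides.** Let `ν > 0`, `0 ≤ c < 1` and `E`
be given. There is `κ > 0` with the following property. Let `(u, p)` be a smooth periodic solution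
of the Navier-Stokes equations with mean zero on `[0, T)` with `∫ |u(0)|² ≤ E`, let `t₀` be any time
in `[0, T)`, and let `N` be any integer with `N^(3/4) ≥ (1 + ∫ |∇u(t₀)|²) / κ`. Let `lam ≥ 0`,
`L ≥ N^(5/4) / κ`, and let `B` be a nonempty set of integers `N² < n ≤ 4 N²` with
`lam^(5/2) log N ≤ κ #B` and `lam N log N ≤ κ #B`. If for every `n ∈ B` the energy flux `Π_n(t)`
through the sphere `|k|² = n` by the triads with frequencies in the band `lam ≤ |k| ≤ L` is at
most `c ν ∑_{|k|² ≥ n} (2 π |k|)² |û(t, k)|² + g(t)` on `(t₀, T)`, for some integrable `g ≥ 0` with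
`∫ g ≤ κ N^(-5/4)`, then `∫ |∇u(t)|² ≤ N^(5/2) / κ` for all `t ∈ [t₀, T)`, and `u` is bounded on
`[0, T) × ℝ³`. -/
theorem result (ν c E : ℝ) (hν : 0 < ν) (hc0 : 0 ≤ c) (hc1 : c < 1) :
    ∃ κ : ℝ, 0 < κ ∧ ∀ (T : ℝ) (u : ℝ → V → V) (p : ℝ → V → ℝ), IsSol ν T u p →
      energy (u 0) ≤ E → ∀ t₀ ∈ Ico 0 T,
      ∀ N : ℕ, (1 + enstrophy (u t₀)) / κ ≤ (N : ℝ) ^ (3 / 4 : ℝ) →
      ∀ lam : ℝ, 0 ≤ lam → ∀ L : ℝ, (N : ℝ) ^ (5 / 4 : ℝ) / κ ≤ L →
      ∀ B : Finset ℕ, B.Nonempty → (∀ n ∈ B, N ^ 2 < n ∧ n ≤ 4 * N ^ 2) →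
      lam ^ (5 / 2 : ℝ) * Real.log N ≤ κ * B.card → lam * N * Real.log N ≤ κ * B.card →
      (∀ n ∈ B, ∃ g : ℝ → ℝ, (∀ t, 0 ≤ g t) ∧ IntegrableOn g (Ioo t₀ T) ∧
        ∫ t in Ioo t₀ T, g t ≤ κ * (N : ℝ) ^ (-(5 / 4) : ℝ) ∧
        ∀ t ∈ Ioo t₀ T, flux n (band lam L (coef (u t)))
          ≤ c * (ν * dissipation n (coef (u t))) + g t) →
      (∀ t ∈ Ico t₀ T, enstrophy (u t) ≤ (N : ℝ) ^ (5 / 2 : ℝ) / κ) ∧
        ∃ M : ℝ, ∀ t ∈ Ico 0 T, ∀ x i, |u t x i| ≤ M := by
  have hpi := Real.pi_pos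
  obtain ⟨κ, hκ, hcore⟩ := crit_core (ν' := ν * (2 * Real.pi) ^ 2) (c := c) (E := max E 1)
    (isWeight_rwt one1_le) (fun a b c => one1_le _) le_rfl (by positivity) hc0
    hc1 (by positivity)
  set κ' : ℝ := κ / (2 * Real.pi) ^ 2 with hκ'
  have h2pi : 1 ≤ (2 * Real.pi) ^ 2 := by
    have := Real.pi_gt_three
    nlinarith
  have hκ'0 : 0 < κ' := by positivity
  have hκ'1 : κ' ≤ κ := div_le_self hκ.le h2pi
  refine ⟨κ', hκ'0, fun T u p h hE t₀ ht₀ N hN lam hlam L hL B hBn hB hl1 hl2 hflux => ?_⟩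
  have hL' : (N : ℝ) ^ (5 / 4 : ℝ) / κ ≤ L := le_trans (by gcongr) hL
  have hcard : 0 ≤ (B.card : ℝ) := Nat.cast_nonneg _
  have hκB : κ' * B.card ≤ κ * B.card := by gcongr
  have hT : 0 < T := ht₀.1.trans_lt ht₀.2
  have h0T : (0 : ℝ) ∈ Ico 0 (T - t₀) := ⟨le_rfl, by linarith [ht₀.2]⟩
  -- the solution started at `t₀`
  have hI : ∀ t ∈ Ico 0 (T - t₀), t₀ + t ∈ Ico 0 T := fun t ht =>
    ⟨by linarith [ht.1, ht₀.1], by linarith [ht.2]⟩
  have hsh := isSol_shift h.lib ht₀
  have hsol := isSolD_of_isSol hsh (fun i => by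
    simp only [add_zero]
    exact mean_zero h.lib h.mean ht₀ i)
  have hsp : ∀ t ∈ Ico 0 T, ∀ i, H459R3.NS.SP (fun x => u t x i) := fun t ht i => h.lib.sp ht i
  have hEns0 : 0 ≤ enstrophy (u t₀) := H459R3.NS.enstrophy_nonneg (u t₀)
  have hG : (1 + enstrophy (u t₀) / (2 * Real.pi) ^ 2) / κ ≤ (N : ℝ) ^ (3 / 4 : ℝ) := by
    refine le_trans ?_ hN
    gcongr
    exact div_le_self hEns0 h2pi
  have hens1 : ∀ t ∈ Ico 0 T, enstrophy (u t) = (2 * Real.pi) ^ 2
      * nt (fun k => kn k ^ 2) (co (u t)) := fun t ht => enstrophy_eq (hsp t ht)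
  choose! g hg0 hgi hgI hgf using hflux
  have key := hcore (enstrophy (u t₀) / (2 * Real.pi) ^ 2) (by positivity) N hG B hBn
    (fun n hn => (hB n hn).1) (fun n hn => (hB n hn).2) lam hlam
    (hl1.trans hκB) (hl2.trans hκB) L hL' (T - t₀) (fun t => u (t₀ + t)) hsol ?_ ?_
    (fun n t => g n (t₀ + t)) (fun n hn t => hg0 n hn _)
    (fun n hn => (shift_integral (hgi n hn)).1)
    (fun n hn => by
      rw [(shift_integral (hgi n hn)).2]
      exact (hgI n hn).trans (by gcongr)) fun t ht n hn => ?_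
  · have hens : ∀ t ∈ Ico t₀ T, enstrophy (u t) ≤ (N : ℝ) ^ (5 / 2 : ℝ) / κ' := by
      intro t ht
      have h1 := key (t - t₀) ⟨by linarith [ht.1], by linarith [ht.2]⟩
      simp only [add_sub_cancel] at h1
      rw [hens1 t ⟨ht₀.1.trans ht.1, ht.2⟩, hκ', div_div_eq_mul_div, mul_comm,
        mul_comm ((N : ℝ) ^ (5 / 2 : ℝ)), mul_div_assoc, mul_comm]
      exact mul_le_mul_of_nonneg_left h1 (by positivity)
    refine ⟨hens, ?_⟩
    have hEc := h.lib.enstrophy_continuousOn
    have hsq : ContinuousOn (fun s => H459R3.NS.enstrophy (u s) ^ 2) (Ico 0 T) := hEc.pow 2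
    have hii : ∀ a b, 0 ≤ a → a ≤ b → b < T →
        IntervalIntegrable (fun s => H459R3.NS.enstrophy (u s) ^ 2) volume a b := fun a b ha hab hb =>
      (hsq.mono fun s hs => ⟨ha.trans hs.1, hs.2.trans_lt hb⟩).intervalIntegrable_of_Icc hab
    set K₀ : ℝ := ∫ s in (0 : ℝ)..t₀, H459R3.NS.enstrophy (u s) ^ 2 with hK₀
    refine bounded_of_enstrophy_sq h.lib hν (K := K₀ + T * ((N : ℝ) ^ (5 / 2 : ℝ) / κ') ^ 2)
      fun t ht => ?_
    have hC : 0 ≤ T * ((N : ℝ) ^ (5 / 2 : ℝ) / κ') ^ 2 := by positivity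
    rcases le_total t t₀ with htt | htt
    · have h1 : ∫ s in (0 : ℝ)..t, H459R3.NS.enstrophy (u s) ^ 2 ≤ K₀ := by
        rw [hK₀, ← intervalIntegral.integral_add_adjacent_intervals (hii 0 t le_rfl ht.1 ht.2)
          (hii t t₀ ht.1 htt ht₀.2)]
        have h2 : 0 ≤ ∫ s in t..t₀, H459R3.NS.enstrophy (u s) ^ 2 :=
          intervalIntegral.integral_nonneg htt fun s _ => sq_nonneg _
        linarith
      linarith
    · rw [← intervalIntegral.integral_add_adjacent_intervals (hii 0 t₀ le_rfl ht₀.1 ht₀.2)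
        (hii t₀ t ht₀.1 htt ht.2)]
      have h1 : ∫ s in t₀..t, H459R3.NS.enstrophy (u s) ^ 2
          ≤ ∫ s in t₀..t, ((N : ℝ) ^ (5 / 2 : ℝ) / κ') ^ 2 := by
        refine intervalIntegral.integral_mono_on htt (hii t₀ t ht₀.1 htt ht.2)
          intervalIntegrable_const fun s hs => ?_
        have h2 : H459R3.NS.enstrophy (u s) ≤ (N : ℝ) ^ (5 / 2 : ℝ) / κ' :=
          hens s ⟨hs.1, hs.2.trans_lt ht.2⟩
        have h3 := H459R3.NS.enstrophy_nonneg (u s)
        gcongr
      rw [intervalIntegral.integral_const, smul_eq_mul] at h1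
      have h2 : (t - t₀) * ((N : ℝ) ^ (5 / 2 : ℝ) / κ') ^ 2
          ≤ T * ((N : ℝ) ^ (5 / 2 : ℝ) / κ') ^ 2 := by
        have : t - t₀ ≤ T := by linarith [ht.2, ht₀.1]
        gcongr
      linarith
  · have e1 : energy (u t₀) = hn 0 (co (u t₀)) := energy_eq_hn (hsp t₀ ht₀)
    have e2 : hn 0 (co (u t₀)) = nt (fun _ => 1) (co (u t₀)) := by
      unfold hn nt sq2
      simp only [pow_zero]
    have e3 : energy (u t₀) ≤ energy (u 0) := h.lib.energy_le hν ht₀
    simp only [add_zero]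
    rw [← e2, ← e1]
    exact (e3.trans hE).trans (le_max_left _ _)
  · simp only [add_zero]
    rw [le_div_iff₀ (by positivity), mul_comm, ← hens1 t₀ ht₀]
  · have htI : t₀ + t ∈ Ico 0 T := hI t ⟨ht.1.le, ht.2⟩
    have h1 := hgf n hn (t₀ + t) ⟨by linarith [ht.1], by linarith [ht.2]⟩
    have hrap : RapV (co (u (t₀ + t))) := rapV_co (hsp _ htI)
    have hdv : ∀ k, dp (kc k) (co (u (t₀ + t)) k) = 0 := dp_co (hsp _ htI) (h.divfree _ htI)
    have hre : ∀ k, co (u (t₀ + t)) (-k) = cj (co (u (t₀ + t)) k) := fun k => by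
      funext i; exact fr_neg_conj _ k
    have hz : co (u (t₀ + t)) 0 = 0 := hsol.supp t ⟨ht.1.le, ht.2⟩ 0 (by simp)
    rw [coef_eq, band_eq, flux_eq' (hp_rap (lp_rap hrap)) (hp_div (lp_div hdv))
      (hp_lp_zero lam L hz) (hp_real (lp_real hre)) n, dissipation_eq] at h1
    exact h1

/-- The same as a theorem on singularities: if the solution is unbounded on `[0, T)`, then, for all
`t₀`, `N`, `lam`, `L` as above, the number of the integers `N² < n ≤ 4 N²` such that the flux of the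
band triads is controlled is at most `(lam^(5/2) + lam N) log N / κ`. For `lam = 0` there is no
such integer. -/
theorem blowup (ν c E : ℝ) (hν : 0 < ν) (hc0 : 0 ≤ c) (hc1 : c < 1) :
    ∃ κ : ℝ, 0 < κ ∧ ∀ (T : ℝ) (u : ℝ → V → V) (p : ℝ → V → ℝ), IsSol ν T u p →
      energy (u 0) ≤ E → (¬∃ M : ℝ, ∀ t ∈ Ico 0 T, ∀ x i, |u t x i| ≤ M) → ∀ t₀ ∈ Ico 0 T,
      ∀ N : ℕ, (1 + enstrophy (u t₀)) / κ ≤ (N : ℝ) ^ (3 / 4 : ℝ) →
      ∀ lam : ℝ, 0 ≤ lam → ∀ L : ℝ, (N : ℝ) ^ (5 / 4 : ℝ) / κ ≤ L →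
      ∀ B : Finset ℕ, (∀ n ∈ B, N ^ 2 < n ∧ n ≤ 4 * N ^ 2) →
      (∀ n ∈ B, ∃ g : ℝ → ℝ, (∀ t, 0 ≤ g t) ∧ IntegrableOn g (Ioo t₀ T) ∧
        ∫ t in Ioo t₀ T, g t ≤ κ * (N : ℝ) ^ (-(5 / 4) : ℝ) ∧
        ∀ t ∈ Ioo t₀ T, flux n (band lam L (coef (u t)))
          ≤ c * (ν * dissipation n (coef (u t))) + g t) →
      κ * B.card ≤ (lam ^ (5 / 2 : ℝ) + lam * N) * Real.log N := by
  obtain ⟨κ, hκ, hr⟩ := result ν c E hν hc0 hc1
  refine ⟨κ, hκ, fun T u p h hE hb t₀ ht₀ N hN lam hlam L hL B hB hflux => ?_⟩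
  by_contra hcon
  push Not at hcon
  have h0 : 0 ≤ Real.log N := Real.log_natCast_nonneg N
  have h1 : 0 ≤ lam ^ (5 / 2 : ℝ) * Real.log N := by positivity
  have h2 : 0 ≤ lam * N * Real.log N := by positivity
  rw [add_mul] at hcon
  have hne : B.Nonempty := by
    rw [Finset.nonempty_iff_ne_empty]
    rintro rfl
    simp only [Finset.card_empty, Nat.cast_zero, mul_zero] at hcon
    linarith
  exact hb (hr T u p h hE t₀ ht₀ N hN lam hlam L hL B hne hB (by linarith) (by linarith) hflux).2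

end Pool.Agent.Results.MP_6bf1e5_an.OctaveFlux
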