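import Pool.Agent.H226.DE.Fin
import Pool.Agent.H259.ND.Ex3

/-!
# Navier-Stokes with an odd order dispersion in each coordinate

Let `n ≥ 3` be odd, `ν > 0` and `α₁, α₂, α₃` nonzero real numbers, of any size and sign. The
three-dimensional periodic Navier-Stokes equations with the additional skew-adjoint term
`∑_j α_j ∂_j^n u`,

  `∂ₜ u + (u · ∇) u + ∇ p = ν Δ u + ∑_j α_j ∂_j^n u`,  `div u = 0`,

have for every smooth periodic divergence-free initial velocity `u₀`, of any size and any mean, a
smooth solution for all times, and it is unique. The additional term does not change the balance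
of energy, there is no smallness condition of any kind, and no average over `α` is taken.

Idea of the proof for `n ≥ 5`. Let `φ(k) = ± (2π)^n ∑_j α_j k_j^n` be the frequency of the mode `k`
and `φ(k) - φ(p) - φ(q)` the detuning of the triad `k = p + q`. Fix a large constant `Λ`. For each
`k` at most `C(Λ) M²` of the frequencies `p` with `|p| ≤ M` satisfy
`|φ(k) - φ(p) - φ(k - p)| ≤ Λ |k|³` (`few_diag`: for the largest coordinate of `k`, the function
`x ↦ x^n + (k_j - x)^n` is uniformly convex or concave with second derivative `≥ c |k_j|^(n-2)`,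
and `n - 2 ≥ 3`). With Schur's test the part of these near resonant triads in the time derivative
of the Sobolev norm `∑ |k|^(2s) |û(k)|²` is at most a small part of the dissipation plus
`C ‖∇u‖² ∑ |k|^(2s) |û(k)|²` (`near_le`), and the time integral of `‖∇u‖²` is finite by the
energy equality. The other triads are removed by a normal form (division by
`ν |2π|² (|k|² + |p|² + |q|²) ± i (φ(k) - φ(p) - φ(q))`); the correction is small
compared to the Sobolev norm (`corr_le`) and the quartic terms are small compared to the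
dissipation (`quart`), if `Λ` is large compared to the energy. This gives a uniform bound of all
Sobolev norms of the Galerkin approximations (`aprN`).

Idea of the proof for `n = 3`. Now there are too many near resonant triads for this argument: the
detuning `3 ∑_j α_j k_j p_j q_j` has exactly the scaling of the Navier-Stokes equations at
frequency `|k|` and time `|k|^(-3)`, and it vanishes if `k` is orthogonal to the coordinate vectors
on which `p` and `q` live. The proof uses instead that on time windows of the length `c 4^(-j)`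
the product of two waves of frequencies in the shells `|p| ~ 2^m`, `|q| ~ 2^l`, `m ≤ l`, satisfies
`∫ ‖P_j (x y)‖² dt ≤ C 2^(2(m-l)) ‖x‖² ‖y‖²` (`S_TB`; without the dispersion the constant would
grow with the shell). For high-high interactions this is Weyl's inequality for the quadratic
exponential sums with the phases `3 α_j k_j p_j (p_j - k_j)` in boxes of the sides `|k_j|`,
summed over the dyadic sizes of the three coordinates of `k` (`S_A3` to `S_A7`); for low-high
interactions a monotone phase (`S_A8`). With Duhamel's formula on each window (`S_A10`) the Sobolev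
norms are controlled on time intervals of fixed length on which the dissipated energy is small,
by a bootstrap for weighted sums over the windows (`S_B1` to `S_B8`). Finitely many such
intervals cover `[0, T]`, because the total dissipated energy is bounded.
-/

open MeasureTheory Set Filter Topology
open scoped ContDiff

namespace Pool.Agent.Results.MP_6bf1e5_an.OddDispersion

/-- The space `ℝ³`. -/
abbrev V := Fin 3 → ℝ

/-- `f` is `1`-periodic in each of the three coordinates. -/
def Periodic {F : Type*} (f : V → F) : Prop :=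
  ∀ (j : Fin 3) (x : V), f (x + Pi.single j 1) = f x

/-- The partial derivative `∂_j^n f` of order `n` in the coordinate `j`. -/
noncomputable def partialD (n : ℕ) (j : Fin 3) (f : V → ℝ) (x : V) : ℝ :=
  iteratedFDeriv ℝ n f x fun _ => Pi.single j 1

/-- `(u, p)` is a smooth `1`-periodic solution, for the times in `I`, of
`∂ₜ uᵢ + ∑_j u_j ∂_j uᵢ = ν ∑_j ∂_j² uᵢ + ∑_j α_j ∂_j^n uᵢ - ∂ᵢ p`, `div u = 0`: `u` and `p` are
`C^∞` on `I × ℝ³` and `1`-periodic in each coordinate of `x`. For `α = 0` these are the
Navier-Stokes equations. -/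
structure IsSol (n : ℕ) (ν : ℝ) (α : Fin 3 → ℝ) (I : Set ℝ) (u : ℝ → V → V) (p : ℝ → V → ℝ) :
    Prop where
  smooth_u : ContDiffOn ℝ ∞ (fun z : ℝ × V => u z.1 z.2) (I ×ˢ univ)
  smooth_p : ContDiffOn ℝ ∞ (fun z : ℝ × V => p z.1 z.2) (I ×ˢ univ)
  per_u : ∀ t ∈ I, Periodic (u t)
  per_p : ∀ t ∈ I, Periodic (p t)
  divfree : ∀ t ∈ I, ∀ x, ∑ j, partialD 1 j (fun y => u t y j) x = 0
  momentum : ∀ t ∈ I, 0 < t → ∀ x i,
    deriv (fun s => u s x i) t + ∑ j, u t x j * partialD 1 j (fun y => u t y i) x
      = ν * ∑ j, partialD 2 j (fun y => u t y i) x + ∑ j, α j * partialD n j (fun y => u t y i) x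
        - partialD 1 i (p t) x

/-! ### The definitions above and those of the files with the proofs -/

open H459R3.NS Pool.Agent.H226.DE

lemma slice {I : Set ℝ} {f : ℝ → V → ℝ}
    (hf : ContDiffOn ℝ ∞ (fun z : ℝ × V => f z.1 z.2) (I ×ˢ univ)) {t : ℝ} (ht : t ∈ I) :
    ContDiff ℝ ∞ (f t) := by
  rw [← contDiffOn_univ]
  exact hf.comp (contDiff_const.prodMk contDiff_id).contDiffOn (fun x _ => ⟨ht, mem_univ _⟩)

lemma partialD_eq (n : ℕ) (j : Fin 3) (f : V → ℝ) (x : V) :
    partialD n j f x = itd (fun _ : Fin n => j) f x := rfl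

lemma partialD_one {f : V → ℝ} (hf : ContDiff ℝ ∞ f) (j : Fin 3) (x : V) :
    partialD 1 j f x = pd j f x := by
  rw [partialD_eq, itd_succ hf, itd_zero]

lemma partialD_two {f : V → ℝ} (hf : ContDiff ℝ ∞ f) (j : Fin 3) (x : V) :
    partialD 2 j f x = pd j (pd j f) x := by
  rw [partialD_eq, itd_succ hf, itd_succ hf, itd_zero]
  rfl

lemma toL {n : ℕ} {ν : ℝ} {α : Fin 3 → ℝ} {I : Set ℝ} {u : ℝ → V → V} {p : ℝ → V → ℝ} :
    IsSol n ν α I u p ↔ IsSolL (opL ν α fun (j : Fin 3) (_ : Fin n) => j) I u p := by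
  constructor
  · intro h
    have hc : ∀ t ∈ I, ∀ i, ContDiff ℝ ∞ fun y => u t y i := fun t ht i =>
      (contDiff_pi.1 (by
        rw [← contDiffOn_univ]
        exact h.smooth_u.comp (contDiff_const.prodMk contDiff_id).contDiffOn
          (fun x _ => ⟨ht, mem_univ _⟩) : ContDiff ℝ ∞ (u t))) i
    refine ⟨h.smooth_u, h.smooth_p, h.per_u, h.per_p, fun t ht x => ?_, fun t ht ht0 x i => ?_⟩
    · rw [← h.divfree t ht x]
      exact Finset.sum_congr rfl fun j _ => (partialD_one (hc t ht j) j x).symm
    · have h1 := h.momentum t ht ht0 x i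
      simp only [partialD_one (hc t ht i), partialD_two (hc t ht i),
        partialD_one (slice h.smooth_p ht)] at h1
      exact h1
  · intro h
    have hc : ∀ t ∈ I, ∀ i, ContDiff ℝ ∞ fun y => u t y i := fun t ht i =>
      (contDiff_pi.1 (by
        rw [← contDiffOn_univ]
        exact h.smooth_u.comp (contDiff_const.prodMk contDiff_id).contDiffOn
          (fun x _ => ⟨ht, mem_univ _⟩) : ContDiff ℝ ∞ (u t))) i
    refine ⟨h.smooth_u, h.smooth_p, h.per_u, h.per_p, fun t ht x => ?_, fun t ht ht0 x i => ?_⟩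
    · rw [← h.divfree t ht x]
      exact Finset.sum_congr rfl fun j _ => partialD_one (hc t ht j) j x
    · have h1 := h.momentum t ht ht0 x i
      simp only [partialD_one (hc t ht i), partialD_two (hc t ht i),
        partialD_one (slice h.smooth_p ht)]
      exact h1

lemma few {n : ℕ} (hn : Odd n) (h5 : 5 ≤ n) {ν : ℝ} {α : Fin 3 → ℝ} (hα : ∀ j, α j ≠ 0)
    (Λ : ℝ) (hΛ : 0 ≤ Λ) : ∃ C, 1 ≤ C ∧ Few (fun L m => |dl (fun k =>
      (syL ν α (fun (j : Fin 3) (_ : Fin n) => j) k).im) L m|
        ≤ Λ * Pool.Agent.X96.HT.kn L ^ 3) C := by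
  refine few_diag hn h5 (β := fun j => -(sg n * (2 * Real.pi) ^ n * α j)) (fun j => ?_)
    (fun L m => ?_) hΛ
  · have h1 : sg n ≠ 0 := fun h => by
      have := sg_abs n
      rw [h, abs_zero] at this
      exact zero_ne_one this
    have := Real.pi_pos
    exact neg_ne_zero.2 (mul_ne_zero (mul_ne_zero h1 (by positivity)) (hα j))
  · unfold dl
    simp only [syL_im hn]
    unfold frq
    simp only [Finset.prod_const, Finset.card_univ, Fintype.card_fin, Pi.sub_apply, Int.cast_sub]
    rw [Finset.mul_sum, Finset.mul_sum, Finset.mul_sum, ← Finset.sum_neg_distrib,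
      ← Finset.sum_neg_distrib, ← Finset.sum_neg_distrib, ← Finset.sum_sub_distrib,
      ← Finset.sum_sub_distrib]
    refine Finset.sum_congr rfl fun j _ => ?_
    ring

lemma im_cubic {ν : ℝ} {α : Fin 3 → ℝ} (k : K3) :
    (syL ν α (fun (j : Fin 3) (_ : Fin 3) => j) k).im
      = Pool.Agent.H259.ND.ph3 (fun j => -(sg 3 * (2 * Real.pi) ^ 3 * α j)) 0 k := by
  rw [syL_im (by decide)]
  unfold frq Pool.Agent.H259.ND.ph3
  simp only [Finset.prod_const, Finset.card_univ, Fintype.card_fin, Pi.zero_apply, zero_mul,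
    add_zero]
  rw [Finset.mul_sum, ← Finset.sum_neg_distrib]
  refine Finset.sum_congr rfl fun j _ => ?_
  ring

/-- **Global regularity of the Navier-Stokes equations with the dispersion `∑_j α_j ∂_j^n u`**,
for every odd `n ≥ 3`, every viscosity `ν > 0` and all nonzero `α₁, α₂, α₃`. -/
theorem result {n : ℕ} (hn : Odd n) (h3 : 3 ≤ n) {ν : ℝ} (hν : 0 < ν) {α : Fin 3 → ℝ}
    (hα : ∀ j, α j ≠ 0) {u₀ : V → V} (hs : ContDiff ℝ ∞ u₀) (hper : Periodic u₀)
    (hdiv : ∀ x, ∑ j, partialD 1 j (fun y => u₀ y j) x = 0) :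
    ∃ (u : ℝ → V → V) (p : ℝ → V → ℝ), IsSol n ν α (Ici 0) u p ∧ u 0 = u₀ ∧
      ∀ (T : ℝ) (u' : ℝ → V → V) (p' : ℝ → V → ℝ), IsSol n ν α (Ico 0 T) u' p' → u' 0 = u₀ →
        ∀ t ∈ Ico 0 T, u' t = u t := by
  have hL := symb_opL (ι := Fin 3) hn hν.le α fun (j : Fin 3) (_ : Fin n) => j
  have hP := polC_syL (ι := Fin 3) hν.le α fun (j : Fin 3) (_ : Fin n) => j
  have hc₀ : ∀ i, ContDiff ℝ ∞ fun y => u₀ y i := contDiff_pi.1 hs
  have hdiv' : ∀ x, ∑ j, pd j (fun y => u₀ y j) x = 0 := fun x => by
    rw [← hdiv x]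
    exact Finset.sum_congr rfl fun j _ => (partialD_one (hc₀ j) j x).symm
  have hpi := Real.pi_pos
  have key : ∃ (u : ℝ → V → V) (p : ℝ → V → ℝ),
      IsSolL (opL ν α fun (j : Fin 3) (_ : Fin n) => j) (Ici 0) u p ∧ u 0 = u₀ := by
    rcases eq_or_lt_of_le h3 with rfl | h4
    · refine Pool.Agent.H259.ND.exists3 hL hP (by omega)
        (β := fun j => -(sg 3 * (2 * Real.pi) ^ 3 * α j)) (fun j => ?_)
        (ν' := ν * (2 * Real.pi) ^ 2) (Cd := ν * (2 * Real.pi) ^ 2) (by positivity) (by positivity)
        im_cubic (fun k => ?_) (fun k => ?_) hs hper hdiv'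
      · have h1 : sg 3 ≠ 0 := fun h => by
          have := sg_abs 3
          rw [h, abs_zero] at this
          exact zero_ne_one this
        exact neg_ne_zero.2 (mul_ne_zero (mul_ne_zero h1 (by positivity)) (hα j))
      · rw [syL_re hn]
        exact le_of_eq (by ring)
      · rw [syL_re hn]
        exact le_of_eq (by ring)
    · have h5 : 5 ≤ n := by
        obtain ⟨m, rfl⟩ := hn
        omega
      refine existsN hL hP (by omega) (ν' := ν * (2 * Real.pi) ^ 2) (by positivity) (fun k => ?_)
        (fun Λ hΛ => few hn h5 hα Λ hΛ) hs hper hdiv'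
      rw [syL_re hn]
      exact le_of_eq (by ring)
  obtain ⟨u, p, hu, hu0⟩ := key
  refine ⟨u, p, toL.2 hu, hu0, fun T u' p' h' h0' t ht => ?_⟩
  exact uniqL hL hP (by omega) (toL.1 h') (hu.mono fun s hs => hs.1) (h0'.trans hu0.symm) t ht

end Pool.Agent.Results.MP_6bf1e5_an.OddDispersion
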